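import Pool.Agent.X331.TU.Fin

/-! # A defective cone with a Terracini union and neither loops nor coloops -/

set_option autoImplicit false

namespace Pool.Agent.Results.MP_0cb83c_co.ProductCone

open MvPolynomial Pool.Agent.X331.TU

universe u
variable {K : Type u} [Field K]

theorem maximal4 [IsAlgClosed K] [CharZero K] (i j k l : Fin 8) (hij : i < j) (hj : j.val ≤ 4)
    (hk : 5 ≤ k.val) (hkl : k < l) : Maximal (Indep (V K)) ({i, j, k, l} : Set (Fin 8)) := by
  refine ⟨indep4 i j k l hij hj hk hkl, ?_⟩
  intro C hC hle x hx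
  have hi : i ∈ C := hle (by simp)
  have hj' : j ∈ C := hle (by simp)
  have hk' : k ∈ C := hle (by simp)
  have hl' : l ∈ C := hle (by simp)
  by_contra hne
  have hne' : x ≠ i ∧ x ≠ j ∧ x ≠ k ∧ x ≠ l := by
    simpa [not_or] using hne
  obtain ⟨h1, h2, h3, h4⟩ := hne'
  rcases Nat.lt_or_ge x.val 5 with h5 | h5
  · rcases lt_or_gt_of_ne h1 with h6 | h6
    · exact not_indep_lo x i j h6 hij hj hx hi hj' hC
    · rcases lt_or_gt_of_ne h2 with h7 | h7
      · exact not_indep_lo i x j h6 h7 hj hi hx hj' hC
      · exact not_indep_lo i j x hij h7 (by omega) hi hj' hx hC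
  · have h3' : x.val ≠ k.val := fun h => h3 (Fin.ext h)
    have h4' : x.val ≠ l.val := fun h => h4 (Fin.ext h)
    have hkl' : k.val < l.val := hkl
    have hmem : ∀ y : Fin 8, 5 ≤ y.val → y ∈ C := by
      intro y hy
      have h8 : y.val = x.val ∨ y.val = k.val ∨ y.val = l.val := by omega
      rcases h8 with h8 | h8 | h8
      · rw [Fin.ext h8]; exact hx
      · rw [Fin.ext h8]; exact hk'
      · rw [Fin.ext h8]; exact hl'
    exact not_indep_hi (hmem 5 (by decide)) (hmem 6 (by decide)) (hmem 7 (by decide)) hC

theorem lo_missing_secant [IsAlgClosed K] {E : Set (Fin 8)} (h : Indep (secant (V K)) E) :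
    ∃ a : Fin 8, a.val ≤ 4 ∧ a ∉ E := by
  have : Infinite K := IsAlgClosed.instInfinite
  by_contra hc
  push Not at hc
  rw [indep_secant_iff] at h
  exact hank_ne (h _ hank_mem (hank_vars.trans hc))

theorem lo_missing_two [IsAlgClosed K] {A B : Set (Fin 8)} (hA : Indep (V K) A)
    (hB : Indep (V K) B) : ∃ a : Fin 8, a.val ≤ 4 ∧ a ∉ A ∪ B := by
  by_contra hc
  push Not at hc
  have key : ∀ C : Set (Fin 8), Indep (V K) C → ∀ i j k : Fin 8, i < j → j < k → k.val ≤ 4 →
      i ∈ C → j ∈ C → k ∈ C → False := fun C hC i j k hij hjk hk hi hj hkC =>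
    not_indep_lo i j k hij hjk hk hi hj hkC hC
  rcases hc 0 (by decide) with h0 | h0 <;> rcases hc 1 (by decide) with h1 | h1 <;>
    rcases hc 2 (by decide) with h2 | h2 <;> rcases hc 3 (by decide) with h3 | h3 <;>
    rcases hc 4 (by decide) with h4 | h4 <;>
    first
    | exact key A hA 0 1 2 (by decide) (by decide) (by decide) h0 h1 h2
    | exact key A hA 0 1 3 (by decide) (by decide) (by decide) h0 h1 h3
    | exact key A hA 0 1 4 (by decide) (by decide) (by decide) h0 h1 h4
    | exact key A hA 0 2 3 (by decide) (by decide) (by decide) h0 h2 h3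
    | exact key A hA 0 2 4 (by decide) (by decide) (by decide) h0 h2 h4
    | exact key A hA 0 3 4 (by decide) (by decide) (by decide) h0 h3 h4
    | exact key A hA 1 2 3 (by decide) (by decide) (by decide) h1 h2 h3
    | exact key A hA 1 2 4 (by decide) (by decide) (by decide) h1 h2 h4
    | exact key A hA 1 3 4 (by decide) (by decide) (by decide) h1 h3 h4
    | exact key A hA 2 3 4 (by decide) (by decide) (by decide) h2 h3 h4
    | exact key B hB 0 1 2 (by decide) (by decide) (by decide) h0 h1 h2
    | exact key B hB 0 1 3 (by decide) (by decide) (by decide) h0 h1 h3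
    | exact key B hB 0 1 4 (by decide) (by decide) (by decide) h0 h1 h4
    | exact key B hB 0 2 3 (by decide) (by decide) (by decide) h0 h2 h3
    | exact key B hB 0 2 4 (by decide) (by decide) (by decide) h0 h2 h4
    | exact key B hB 0 3 4 (by decide) (by decide) (by decide) h0 h3 h4
    | exact key B hB 1 2 3 (by decide) (by decide) (by decide) h1 h2 h3
    | exact key B hB 1 2 4 (by decide) (by decide) (by decide) h1 h2 h4
    | exact key B hB 1 3 4 (by decide) (by decide) (by decide) h1 h3 h4
    | exact key B hB 2 3 4 (by decide) (by decide) (by decide) h2 h3 h4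

theorem two_of_missing [CharZero K] {E : Set (Fin 8)} (a : Fin 8) (ha : a.val ≤ 4)
    (haE : a ∉ E) : IndepTwo (V K) E := by
  have key : ∀ i j i' j' : Fin 8, i < j → j.val ≤ 4 → i' < j' → j'.val ≤ 4 →
      (∀ x : Fin 8, x ≠ a → (x = i ∨ x = j ∨ x = 5 ∨ x = 7) ∨ (x = i' ∨ x = j' ∨ x = 5 ∨ x = 6)) →
      IndepTwo (V K) E := by
    intro i j i' j' hij hj hij' hj' hcov
    refine ⟨E ∩ {i, j, 5, 7}, E ∩ {i', j', 5, 6},
      (indep4 i j 5 7 hij hj (by decide) (by decide)).mono Set.inter_subset_right,
      (indep4 i' j' 5 6 hij' hj' (by decide) (by decide)).mono Set.inter_subset_right, ?_⟩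
    rw [← Set.inter_union_distrib_left]
    apply (Set.inter_eq_left.2 _).symm
    intro x hx
    have hxa : x ≠ a := fun h => haE (h ▸ hx)
    exact hcov x hxa
  have h5' : ∀ b : Fin 8, b.val ≤ 4 → b = 0 ∨ b = 1 ∨ b = 2 ∨ b = 3 ∨ b = 4 := by decide
  have h5 := h5' a ha
  rcases h5 with rfl | rfl | rfl | rfl | rfl
  · exact key 1 2 3 4 (by decide) (by decide) (by decide) (by decide) (by decide)
  · exact key 0 2 3 4 (by decide) (by decide) (by decide) (by decide) (by decide)
  · exact key 0 1 3 4 (by decide) (by decide) (by decide) (by decide) (by decide)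
  · exact key 0 1 2 4 (by decide) (by decide) (by decide) (by decide) (by decide)
  · exact key 0 1 2 3 (by decide) (by decide) (by decide) (by decide) (by decide)

/-- Over every algebraically closed field of characteristic zero there is an irreducible affine
cone `X ⊆ 𝔸⁸` that is defective, whose secant variety has algebraic matroid `2M(X)`, and whose
algebraic matroid has neither loops nor coloops. -/
theorem result (K : Type u) [Field K] [IsAlgClosed K] [CharZero K] :
    ∃ X : Set (Fin 8 → K), IsIrreducibleCone X ∧ Defective X ∧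
      (∀ E : Set (Fin 8), Indep (secant X) E ↔ IndepTwo X E) ∧
      (∀ e : Fin 8, ¬ IsLoop X e) ∧ (∀ e : Fin 8, ¬ IsColoop X e) := by
  refine ⟨V K, V_cone, V_defective, ?_, ?_, ?_⟩
  · intro E
    constructor
    · intro h
      obtain ⟨a, ha, haE⟩ := lo_missing_secant h
      exact two_of_missing a ha haE
    · rintro ⟨A, B, hA, hB, rfl⟩
      obtain ⟨a, ha, haE⟩ := lo_missing_two hA hB
      rw [indep_secant_iff]
      refine (indep7 a ha).mono ?_
      intro x hx hxa
      exact haE (hxa ▸ hx)
  · intro e he
    have key : ∀ i j k l : Fin 8, i < j → j.val ≤ 4 → 5 ≤ k.val → k < l →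
        (e = i ∨ e = j ∨ e = k ∨ e = l) → False := by
      intro i j k l hij hj hk hkl hm
      exact he _ (indep4 i j k l hij hj hk hkl) (by simpa using hm)
    fin_cases e
    · exact key 0 1 5 6 (by decide) (by decide) (by decide) (by decide) (by decide)
    · exact key 0 1 5 6 (by decide) (by decide) (by decide) (by decide) (by decide)
    · exact key 2 3 5 6 (by decide) (by decide) (by decide) (by decide) (by decide)
    · exact key 2 3 5 6 (by decide) (by decide) (by decide) (by decide) (by decide)
    · exact key 3 4 5 6 (by decide) (by decide) (by decide) (by decide) (by decide)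
    · exact key 0 1 5 6 (by decide) (by decide) (by decide) (by decide) (by decide)
    · exact key 0 1 5 6 (by decide) (by decide) (by decide) (by decide) (by decide)
    · exact key 0 1 6 7 (by decide) (by decide) (by decide) (by decide) (by decide)
  · intro e he
    have key : ∀ i j k l : Fin 8, i < j → j.val ≤ 4 → 5 ≤ k.val → k < l →
        ¬ (e = i ∨ e = j ∨ e = k ∨ e = l) → False := by
      intro i j k l hij hj hk hkl hm
      exact hm (by simpa using he _ (maximal4 i j k l hij hj hk hkl))
    fin_cases e
    · exact key 1 2 5 6 (by decide) (by decide) (by decide) (by decide) (by decide)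
    · exact key 0 2 5 6 (by decide) (by decide) (by decide) (by decide) (by decide)
    · exact key 0 1 5 6 (by decide) (by decide) (by decide) (by decide) (by decide)
    · exact key 0 1 5 6 (by decide) (by decide) (by decide) (by decide) (by decide)
    · exact key 0 1 5 6 (by decide) (by decide) (by decide) (by decide) (by decide)
    · exact key 0 1 6 7 (by decide) (by decide) (by decide) (by decide) (by decide)
    · exact key 0 1 5 7 (by decide) (by decide) (by decide) (by decide) (by decide)
    · exact key 0 1 5 6 (by decide) (by decide) (by decide) (by decide) (by decide)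

end Pool.Agent.Results.MP_0cb83c_co.ProductCone
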